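import Pool.Agent.MP_e2979e_gt.Mg.Final

/-!
The negated form of the question for k = 1.  In arbitrarily large dimension n there is a closed
quasi-positively curved manifold on which the isometry group is transitive (cohomogeneity 0, the
example is complex projective space) that is not the first term M_0 of any chain of step 1: there
is not even a second term M_1.
-/

namespace Pool.Agent.Results.MP_e2979e_gt.NoChain

open Pool.Agent.MP_e2979e_gt

theorem result (n₀ : ℕ) : ∃ n ≥ n₀, ∃ X : ClosedRiem n, X.QuasiPositive ∧
    (∀ x, X.orbit x = Set.univ) ∧ ∀ Y : ClosedRiem (n + 1), Y.QuasiPositive →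
      Nonempty (Y.Orbits ≃ X.Orbits) → ∀ f : X.M → Y.M, ¬ GeodesicInjection X Y f :=
  ⟨2 * (n₀ + 2), by omega, main (n₀ + 2) (by omega)⟩

end Pool.Agent.Results.MP_e2979e_gt.NoChain
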